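import Mathlib

/-!
# Fourier analysis on `(ZMod 2) ^ d` with real signs
-/

set_option autoImplicit false

namespace Pool.Agent.TH360.Kom

open Finset

/-- the sign of an element of `ZMod 2` -/
noncomputable def sgn (a : ZMod 2) : ℝ := if a = 0 then 1 else -1

lemma sgn_zero : sgn 0 = 1 := by simp [sgn]

lemma sgn_one : sgn 1 = -1 := by simp [sgn]

lemma sgn_pm (a : ZMod 2) : sgn a = 1 ∨ sgn a = -1 := by
  unfold sgn; split_ifs <;> simp

lemma zmod2 : ∀ a : ZMod 2, a = 0 ∨ a = 1 := by decide

lemma sgn_add (a b : ZMod 2) : sgn (a + b) = sgn a * sgn b := by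
  rcases zmod2 a with h | h <;> rcases zmod2 b with h' | h' <;> rw [h, h']
  · rw [add_zero, sgn_zero]; norm_num
  · rw [zero_add, sgn_one, sgn_zero]; norm_num
  · rw [add_zero, sgn_one, sgn_zero]; norm_num
  · rw [show (1 : ZMod 2) + 1 = 0 by decide, sgn_one, sgn_zero]; norm_num

variable {d : ℕ}

/-- the pairing -/
noncomputable def e (t z : Fin d → ZMod 2) : ℝ := sgn (∑ l, t l * z l)

lemma e_pm (t z : Fin d → ZMod 2) : e t z = 1 ∨ e t z = -1 := sgn_pm _

lemma e_sq (t z : Fin d → ZMod 2) : e t z ^ 2 = 1 := by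
  rcases e_pm t z with h | h <;> rw [h] <;> norm_num

lemma e_comm (t z : Fin d → ZMod 2) : e t z = e z t := by
  unfold e
  congr 1
  exact Finset.sum_congr rfl fun l _ => mul_comm _ _

lemma e_add_right (t z w : Fin d → ZMod 2) : e t (z + w) = e t z * e t w := by
  unfold e
  rw [← sgn_add, ← Finset.sum_add_distrib]
  congr 1
  exact Finset.sum_congr rfl fun l _ => by rw [Pi.add_apply, mul_add]

lemma e_add_left (t t' z : Fin d → ZMod 2) : e (t + t') z = e t z * e t' z := by
  rw [e_comm, e_add_right, e_comm z t, e_comm z t']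

lemma e_zero_right (t : Fin d → ZMod 2) : e t 0 = 1 := by
  unfold e; simp [sgn_zero]

lemma add_self (t : Fin d → ZMod 2) : t + t = 0 := by
  funext l
  rw [Pi.add_apply]
  exact CharTwo.add_self_eq_zero _

lemma e_orth (z : Fin d → ZMod 2) (hz : z ≠ 0) : ∑ t, e t z = 0 := by
  classical
  obtain ⟨l, hl⟩ : ∃ l, z l ≠ 0 := by
    by_contra hcon
    push Not at hcon
    exact hz (funext hcon)
  have hl1 : z l = 1 := (zmod2 _).resolve_left hl
  have h3 : ∀ t : Fin d → ZMod 2, e (t + Pi.single l 1) z = - e t z := by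
    intro t
    rw [e_add_left]
    have : e (Pi.single l 1) z = -1 := by
      unfold e
      rw [Finset.sum_eq_single l]
      · rw [Pi.single_eq_same, hl1, one_mul, sgn_one]
      · intro k _ hk
        rw [Pi.single_eq_of_ne hk, zero_mul]
      · intro h; exact absurd (Finset.mem_univ l) h
    rw [this]; ring
  have h4 : ∑ t, e t z = ∑ t, e (t + Pi.single l 1) z :=
    (Equiv.sum_comp (Equiv.addRight (Pi.single l 1)) (fun t => e t z)).symm
  simp_rw [h3] at h4
  rw [Finset.sum_neg_distrib] at h4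
  linarith

lemma card_Z : (Fintype.card (Fin d → ZMod 2) : ℝ) = 2 ^ d := by
  rw [Fintype.card_fun, ZMod.card, Fintype.card_fin]
  push_cast
  rfl

lemma e_orth' (z w : Fin d → ZMod 2) : ∑ t, e t z * e t w = if z = w then 2 ^ d else 0 := by
  have h1 : ∀ t, e t z * e t w = e t (z + w) := fun t => (e_add_right _ _ _).symm
  simp_rw [h1]
  split_ifs with h
  · rw [h, add_self]
    simp_rw [e_zero_right]
    rw [Finset.sum_const, nsmul_eq_mul, Finset.card_univ, card_Z, mul_one]
  · apply e_orth
    intro h0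
    apply h
    have : z + w + w = w := by rw [h0, zero_add]
    rwa [add_assoc, add_self, add_zero] at this

/-- Parseval -/
lemma pars (c : (Fin d → ZMod 2) → ℝ) : ∑ z, (∑ t, c t * e t z) ^ 2 = 2 ^ d * ∑ t, c t ^ 2 := by
  have e1 : ∀ z, (∑ t, c t * e t z) ^ 2 = ∑ t, ∑ t', c t * c t' * (e z t * e z t') := by
    intro z
    rw [sq, Finset.sum_mul_sum]
    refine Finset.sum_congr rfl fun t _ => Finset.sum_congr rfl fun t' _ => ?_
    rw [e_comm z t, e_comm z t']; ring
  simp_rw [e1]
  rw [Finset.sum_comm]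
  rw [Finset.mul_sum]
  refine Finset.sum_congr rfl fun t _ => ?_
  rw [Finset.sum_comm]
  simp_rw [← Finset.mul_sum, e_orth']
  simp
  ring

/-- inversion -/
lemma inv (σ : (Fin d → ZMod 2) → ℝ) (w : Fin d → ZMod 2) :
    ∑ t, (∑ z, e t z * σ z) * e t w = 2 ^ d * σ w := by
  have e1 : ∀ t, (∑ z, e t z * σ z) * e t w = ∑ z, σ z * (e t z * e t w) := by
    intro t
    rw [Finset.sum_mul]
    exact Finset.sum_congr rfl fun z _ => by ring
  simp_rw [e1]
  rw [Finset.sum_comm]
  simp_rw [← Finset.mul_sum, e_orth']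
  simp
  ring

section chars

variable {H : Type} [CommGroup H] [Fintype H]

/-- Parseval for the characters of an elementary abelian group, written as linear forms -/
lemma parsX [Module (ZMod 2) (Additive H)] [Fintype (Module.Dual (ZMod 2) (Additive H))]
    (g : H → ℝ) :
    ∑ ψ : Module.Dual (ZMod 2) (Additive H), (∑ y, g y * sgn (ψ (Additive.ofMul y))) ^ 2 =
      Fintype.card (Module.Dual (ZMod 2) (Additive H)) * ∑ y, g y ^ 2 := by
  classical
  have horth : ∀ v : Additive H, v ≠ 0 → ∑ ψ : Module.Dual (ZMod 2) (Additive H), sgn (ψ v) = 0 := by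
    intro v hv
    obtain ⟨ψ₀, hψ₀⟩ : ∃ ψ₀ : Module.Dual (ZMod 2) (Additive H), ψ₀ v ≠ 0 := by
      by_contra hcon
      push Not at hcon
      exact hv ((Module.forall_dual_apply_eq_zero_iff (ZMod 2) _).mp hcon)
    have h1 : ψ₀ v = 1 := (zmod2 _).resolve_left hψ₀
    have h3 : ∀ ψ : Module.Dual (ZMod 2) (Additive H), sgn ((ψ + ψ₀) v) = - sgn (ψ v) := by
      intro ψ
      rw [LinearMap.add_apply, sgn_add, h1, sgn_one]; ring
    have h4 : ∑ ψ : Module.Dual (ZMod 2) (Additive H), sgn (ψ v) = ∑ ψ : Module.Dual (ZMod 2) (Additive H), sgn ((ψ + ψ₀) v) :=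
      (Equiv.sum_comp (Equiv.addRight ψ₀) (fun ψ : Module.Dual (ZMod 2) (Additive H) => sgn (ψ v))).symm
    simp_rw [h3] at h4
    rw [Finset.sum_neg_distrib] at h4
    linarith
  have horth' : ∀ y z : H, ∑ ψ : Module.Dual (ZMod 2) (Additive H), sgn (ψ (Additive.ofMul y)) * sgn (ψ (Additive.ofMul z)) =
      if y = z then (Fintype.card (Module.Dual (ZMod 2) (Additive H)) : ℝ) else 0 := by
    intro y z
    have h1 : ∀ ψ : Module.Dual (ZMod 2) (Additive H), sgn (ψ (Additive.ofMul y)) * sgn (ψ (Additive.ofMul z)) =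
        sgn (ψ (Additive.ofMul y + Additive.ofMul z)) := fun ψ => by
      rw [map_add, sgn_add]
    simp_rw [h1]
    split_ifs with h
    · rw [h]
      have h2 : ∀ ψ : Module.Dual (ZMod 2) (Additive H), sgn (ψ (Additive.ofMul z + Additive.ofMul z)) = 1 := by
        intro ψ
        rw [map_add, sgn_add]
        rcases sgn_pm (ψ (Additive.ofMul z)) with h' | h' <;> rw [h'] <;> norm_num
      simp_rw [h2]
      rw [Finset.sum_const, nsmul_eq_mul, Finset.card_univ, mul_one]
    · apply horth
      intro h0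
      apply h
      have h5 : Additive.ofMul z + Additive.ofMul z = 0 := by
        have : (2 : ZMod 2) • (Additive.ofMul z) = 0 := by
          rw [show (2 : ZMod 2) = 0 by decide, zero_smul]
        rwa [two_smul] at this
      have h6 : Additive.ofMul y = Additive.ofMul z := by
        have : Additive.ofMul y + Additive.ofMul z + Additive.ofMul z = Additive.ofMul z := by
          rw [h0, zero_add]
        rwa [add_assoc, h5, add_zero] at this
      exact Additive.ofMul.injective h6
  have e1 : ∀ ψ : Module.Dual (ZMod 2) (Additive H), (∑ y, g y * sgn (ψ (Additive.ofMul y))) ^ 2 = ∑ y, ∑ z, g y * g z *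
      (sgn (ψ (Additive.ofMul y)) * sgn (ψ (Additive.ofMul z))) := by
    intro ψ
    rw [sq, Finset.sum_mul_sum]
    refine Finset.sum_congr rfl fun t _ => Finset.sum_congr rfl fun t' _ => ?_
    ring
  simp_rw [e1]
  rw [Finset.sum_comm, Finset.mul_sum]
  refine Finset.sum_congr rfl fun y _ => ?_
  rw [Finset.sum_comm]
  have e2 : ∀ z : H, ∑ ψ : Module.Dual (ZMod 2) (Additive H), g y * g z *
      (sgn (ψ (Additive.ofMul y)) * sgn (ψ (Additive.ofMul z))) =
      g y * g z * (if y = z then (Fintype.card (Module.Dual (ZMod 2) (Additive H)) : ℝ) else 0) := by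
    intro z
    rw [← Finset.mul_sum, horth']
  rw [Finset.sum_congr rfl fun z _ => e2 z]
  simp
  ring

end chars

end Pool.Agent.TH360.Kom
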