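import Pool.Agent.TH360.Kom.Red
import Pool.Agent.H422R3.Kom.Final

/-!
# Vector systems with an elementary abelian 2-group of symmetries: final forms
-/

set_option autoImplicit false

namespace Pool.Agent.TH360.Kom

open Finset MulAction

/-- the value of all systems of at most `n` vectors, indexed by `Fin` -/
def GoodFin (n : ℕ) (B : ℝ) : Prop :=
  ∀ (d m : ℕ) (v : Fin m → Fin d → ℝ), m ≤ n → (∀ j, ∑ k, v j k ^ 2 ≤ 1) →
    ∃ ε : Fin m → ℝ, (∀ j, ε j = 1 ∨ ε j = -1) ∧ ∀ k, |∑ j, ε j * v j k| ≤ B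

lemma good_of_fin {n : ℕ} {B : ℝ} (h : GoodFin n B) : Good n B := by
  intro I J _ _ a hJ hcol
  let eI := Fintype.equivFin I
  let eJ := Fintype.equivFin J
  obtain ⟨ε, h1, h2⟩ := h (Fintype.card I) (Fintype.card J) (fun j i => a (eI.symm i) (eJ.symm j)) hJ
    (by
      intro j
      rw [Equiv.sum_comp eI.symm (fun i => a i (eJ.symm j) ^ 2)]
      exact hcol _)
  refine ⟨fun j => ε (eJ j), fun j => h1 _, fun i => ?_⟩
  have h3 := h2 (eI i)
  have h4 : ∑ v, a i v * ε (eJ v) = ∑ j, ε j * a (eI.symm (eI i)) (eJ.symm j) := by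
    rw [← Equiv.sum_comp eJ, eI.symm_apply_apply]
    refine Finset.sum_congr rfl fun v _ => ?_
    rw [eJ.symm_apply_apply, mul_comm]
  rw [h4]
  exact h3

lemma good_mono {n m : ℕ} {B : ℝ} (h : Good n B) (hm : m ≤ n) : Good m B :=
  fun I J _ _ a hJ hcol => h I J a (hJ.trans hm) hcol

lemma good_nonneg {n : ℕ} {B : ℝ} (h : Good n B) : 0 ≤ B := by
  obtain ⟨y, _, hy⟩ := h PUnit (Fin 0) (fun _ _ => 0) (by simp) (by simp)
  exact le_trans (abs_nonneg _) (hy PUnit.unit)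

/-- a power of two next to `72 r ^ 9` -/
lemma exists_d (r : ℕ) (hr : 1 ≤ r) : ∃ d : ℕ, 72 * r ^ 9 ≤ 2 ^ d ∧ 2 ^ d ≤ 144 * r ^ 9 := by
  have h1 : 1 ≤ r ^ 9 := Nat.one_le_pow _ _ hr
  refine ⟨Nat.clog 2 (72 * r ^ 9), Nat.le_pow_clog (by norm_num) _, ?_⟩
  have h2 : 1 < 72 * r ^ 9 := by omega
  have h3 := Nat.pow_pred_clog_lt_self (b := 2) (by norm_num) h2
  have h4 : 0 < Nat.clog 2 (72 * r ^ 9) := Nat.clog_pos (by norm_num) (by omega)
  have h5 : 2 ^ Nat.clog 2 (72 * r ^ 9) = 2 * 2 ^ (Nat.clog 2 (72 * r ^ 9)).pred := by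
    rw [← pow_succ', Nat.pred_eq_sub_one, Nat.sub_add_cancel h4]
  omega

/-- systems with symmetries: reduction to systems of few vectors -/
theorem action {H R C : Type} [Group H] [Finite H] [Fintype R] [Fintype C] [MulAction H R]
    [MulAction H C] (h2 : ∀ a : H, a * a = 1) (hR : ∀ (a : H) (r : R), a • r = r → a = 1)
    (hC : ∀ (a : H) (c : C), a • c = c → a = 1) (A : R → C → ℝ)
    (hA : ∀ (a : H) r c, A (a • r) (a • c) = A r c) (hcol : ∀ c, ∑ r, A r c ^ 2 ≤ 1) (B : ℝ)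
    (hB : Good (144 * Nat.card (orbitRel.Quotient H C) ^ 10) B) :
    ∃ ε : C → ℝ, (∀ c, ε c = 1 ∨ ε c = -1) ∧ ∀ r, |∑ c, A r c * ε c| ≤ 3 * B := by
  classical
  have comm : ∀ a b : H, a * b = b * a := by
    intro a b
    have h1 := h2 (a * b)
    have h3 : (a * b)⁻¹ = a * b := inv_eq_of_mul_eq_one_left h1
    rw [mul_inv_rev, inv_eq_of_mul_eq_one_left (h2 a), inv_eq_of_mul_eq_one_left (h2 b)] at h3
    exact h3.symm
  let _ : CommGroup H := { (inferInstance : Group H) with mul_comm := comm }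
  have : Fintype H := Fintype.ofFinite H
  have : Fintype (orbitRel.Quotient H R) := Fintype.ofFinite _
  have : Fintype (orbitRel.Quotient H C) := Fintype.ofFinite _
  rcases isEmpty_or_nonempty C with hE | hN
  · refine ⟨fun _ => 1, fun _ => Or.inl rfl, fun r => ?_⟩
    have := good_nonneg hB
    simp
    linarith
  · have hJ : Nonempty (orbitRel.Quotient H C) := ⟨Quotient.mk'' (Classical.arbitrary C)⟩
    refine Pool.Agent.H422R3.Kom.transfer h2 hR hC A hA hcol _ ?_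
    intro f hf
    rw [Nat.card_eq_fintype_card] at hB
    set r := Fintype.card (orbitRel.Quotient H C) with hr
    have hr1 : 1 ≤ r := Fintype.card_pos
    obtain ⟨d, hd1, hd2⟩ := exists_d r hr1
    refine reduce h2 f hf d ?_ B (good_mono hB ?_)
    · rw [← hr]
      exact_mod_cast hd1
    · rw [← hr]
      calc r * 2 ^ d ≤ r * (144 * r ^ 9) := Nat.mul_le_mul_left _ hd2
        _ = 144 * r ^ 10 := by ring

/-- the bound of the starting library for systems without symmetries -/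
lemma good_log (n : ℕ) : Good n (70000000 * (1 + Real.log (1 + (n : ℝ))) ^ (1 / 4 : ℝ)) := by
  intro I J _ _ a hJ hcol
  obtain ⟨y, h1, h2⟩ := Pool.Agent.H422R3.Kom.komlos a hcol
  refine ⟨y, h1, fun i => (h2 i).trans ?_⟩
  apply mul_le_mul_of_nonneg_left _ (by norm_num)
  have h3 : (Fintype.card J : ℝ) ≤ n := by exact_mod_cast hJ
  have h4 : (0 : ℝ) ≤ (Fintype.card J : ℝ) := Nat.cast_nonneg _
  have h5 : Real.log (1 + (Fintype.card J : ℝ)) ≤ Real.log (1 + (n : ℝ)) :=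
    Real.log_le_log (by positivity) (by linarith)
  have h6 : 0 ≤ Real.log (1 + (Fintype.card J : ℝ)) := Real.log_nonneg (by linarith)
  exact Real.rpow_le_rpow (by linarith) (by linarith) (by norm_num)

lemma log_num (r : ℕ) (hr : 1 ≤ r) :
    3 * (70000000 * (1 + Real.log (1 + ((144 * r ^ 10 : ℕ) : ℝ))) ^ (1 / 4 : ℝ)) ≤
      400000000 * (1 + Real.log r) ^ (1 / 4 : ℝ) := by
  have hrR : (1 : ℝ) ≤ r := by exact_mod_cast hr
  have hl : 0 ≤ Real.log (r : ℝ) := Real.log_nonneg hrR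
  have h10 : (1 : ℝ) ≤ (r : ℝ) ^ 10 := one_le_pow₀ hrR
  have h1 : Real.log (1 + ((144 * r ^ 10 : ℕ) : ℝ)) ≤ 5.2 + 10 * Real.log r := by
    push_cast
    have e1 : Real.log (1 + 144 * (r : ℝ) ^ 10) ≤ Real.log (145 * (r : ℝ) ^ 10) :=
      Real.log_le_log (by positivity) (by linarith)
    rw [Real.log_mul (by norm_num) (by positivity), Real.log_pow] at e1
    have e2 : Real.log 145 ≤ 5.2 := by
      have e3 : Real.log 145 ≤ Real.log (2 ^ (7.5 : ℝ)) := by
        apply Real.log_le_log (by norm_num)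
        have : (2 : ℝ) ^ (7.5 : ℝ) = 128 * Real.sqrt 2 := by
          rw [show (7.5 : ℝ) = 7 + 1 / 2 by norm_num, Real.rpow_add (by norm_num),
            ← Real.sqrt_eq_rpow]
          norm_num
        rw [this]
        have : (1.4 : ℝ) ≤ Real.sqrt 2 := Real.le_sqrt_of_sq_le (by norm_num)
        linarith
      rw [Real.log_rpow (by norm_num)] at e3
      have := Real.log_two_lt_d9
      linarith
    push_cast at e1
    linarith
  have h2 : (1 + Real.log (1 + ((144 * r ^ 10 : ℕ) : ℝ))) ^ (1 / 4 : ℝ) ≤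
      (10 * (1 + Real.log r)) ^ (1 / 4 : ℝ) := by
    apply Real.rpow_le_rpow
    · have : 0 ≤ Real.log (1 + ((144 * r ^ 10 : ℕ) : ℝ)) := Real.log_nonneg (by
        have : (0 : ℝ) ≤ ((144 * r ^ 10 : ℕ) : ℝ) := Nat.cast_nonneg _
        linarith)
      linarith
    · linarith
    · norm_num
  rw [Real.mul_rpow (by norm_num) (by linarith)] at h2
  have h3 : (10 : ℝ) ^ (1 / 4 : ℝ) ≤ 1.8 := by
    have h8 : (10 : ℝ) ≤ 1.8 ^ (4 : ℝ) := by
      rw [show (4 : ℝ) = ((4 : ℕ) : ℝ) by norm_num, Real.rpow_natCast]; norm_num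
    calc (10 : ℝ) ^ (1 / 4 : ℝ) ≤ (1.8 ^ (4 : ℝ)) ^ (1 / 4 : ℝ) :=
          Real.rpow_le_rpow (by norm_num) h8 (by norm_num)
      _ = 1.8 := by rw [← Real.rpow_mul (by norm_num)]; norm_num
  have h4 : 0 ≤ (1 + Real.log r) ^ (1 / 4 : ℝ) := by positivity
  nlinarith

theorem explicit {H R C : Type} [Group H] [Finite H] [Fintype R] [Fintype C] [MulAction H R]
    [MulAction H C] (h2 : ∀ a : H, a * a = 1) (hR : ∀ (a : H) (r : R), a • r = r → a = 1)
    (hC : ∀ (a : H) (c : C), a • c = c → a = 1) (A : R → C → ℝ)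
    (hA : ∀ (a : H) r c, A (a • r) (a • c) = A r c) (hcol : ∀ c, ∑ r, A r c ^ 2 ≤ 1) :
    ∃ ε : C → ℝ, (∀ c, ε c = 1 ∨ ε c = -1) ∧ ∀ r, |∑ c, A r c * ε c| ≤
      400000000 * (1 + Real.log (Nat.card (orbitRel.Quotient H C))) ^ (1 / 4 : ℝ) := by
  rcases isEmpty_or_nonempty C with hE | hN
  · refine ⟨fun _ => 1, fun _ => Or.inl rfl, fun r => ?_⟩
    have h0 : Nat.card (orbitRel.Quotient H C) = 0 := by
      rw [Nat.card_eq_zero]
      left
      exact ⟨fun q => Quotient.inductionOn' q (fun c => hE.false c)⟩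
    rw [h0]
    simp
  · have : Finite (orbitRel.Quotient H C) := inferInstance
    have hJ : Nonempty (orbitRel.Quotient H C) := ⟨Quotient.mk'' (Classical.arbitrary C)⟩
    have hr : 1 ≤ Nat.card (orbitRel.Quotient H C) := Nat.card_pos
    obtain ⟨ε, h1, h3⟩ := action h2 hR hC A hA hcol _ (good_log _)
    exact ⟨ε, h1, fun r => (h3 r).trans (log_num _ hr)⟩

end Pool.Agent.TH360.Kom
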