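import Mathlib

/-!
# Selection of an affine subspace on which finitely many functions have the right mean
-/

set_option autoImplicit false

namespace Pool.Agent.TH360.Kom

open Finset

variable {X : Type*} [AddCommGroup X] [Module (ZMod 2) X] [Fintype X]
variable {J : Type*} [Fintype J]

/-- the combination of `π` with coefficients `t` -/
def comb {d : ℕ} (π : Fin d → X) (t : Fin d → ZMod 2) : X := ∑ l, t l • π l

/-- the sum of `g` over the affine subspace -/
def asum {d : ℕ} (π : Fin d → X) (g : X → ℝ) (u : X) : ℝ :=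
  ∑ t : Fin d → ZMod 2, g (u + comb π t)

lemma sum_cons {d : ℕ} (F : (Fin (d + 1) → ZMod 2) → ℝ) :
    ∑ t, F t = ∑ t' : Fin d → ZMod 2, F (Fin.cons 0 t') + ∑ t' : Fin d → ZMod 2, F (Fin.cons 1 t') := by
  have h1 : ∑ t, F t = ∑ p : ZMod 2 × (Fin d → ZMod 2), F (Fin.cons p.1 p.2) :=
    (Equiv.sum_comp (Fin.consEquiv (fun _ : Fin (d + 1) => ZMod 2)) F).symm
  rw [h1, Fintype.sum_prod_type]
  exact Fin.sum_univ_two (fun a : ZMod 2 => ∑ t' : Fin d → ZMod 2, F (Fin.cons a t'))

lemma asum_cons {d : ℕ} (π0 : X) (π : Fin d → X) (g : X → ℝ) (u : X) :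
    asum (Fin.cons π0 π : Fin (d + 1) → X) g u = asum π g u + asum π g (u + π0) := by
  unfold asum
  rw [sum_cons]
  congr 1
  · apply Finset.sum_congr rfl
    intro t _
    congr 2
    unfold comb
    rw [Fin.sum_univ_succ]
    simp
  · apply Finset.sum_congr rfl
    intro t _
    congr 1
    unfold comb
    rw [Fin.sum_univ_succ]
    simp [add_assoc]

lemma sum_asum {d : ℕ} (π : Fin d → X) (g : X → ℝ) : ∑ u, asum π g u = 2 ^ d * ∑ u, g u := by
  unfold asum
  rw [Finset.sum_comm]
  have h : ∀ t : Fin d → ZMod 2, ∑ u, g (u + comb π t) = ∑ u, g u := fun t =>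
    Equiv.sum_comp (Equiv.addRight (comb π t)) g
  simp_rw [h]
  rw [Finset.sum_const, Finset.card_univ, nsmul_eq_mul]
  congr 1
  rw [Fintype.card_fun, ZMod.card, Fintype.card_fin]
  push_cast
  rfl

/-- one step: a shift which halves the variance -/
lemma step (a : J → X → ℝ) (h0 : ∀ j, ∑ u, a j u = 0) :
    ∃ π0 : X, ∑ j, ∑ u, (a j u + a j (u + π0)) ^ 2 ≤ 2 * ∑ j, ∑ u, a j u ^ 2 := by
  have htot : ∑ π0 : X, ∑ j, ∑ u, (a j u + a j (u + π0)) ^ 2 =
      ∑ π0 : X, 2 * ∑ j, ∑ u, a j u ^ 2 := by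
    rw [Finset.sum_comm]
    have h1 : ∀ j, ∑ π0 : X, ∑ u, (a j u + a j (u + π0)) ^ 2 =
        Fintype.card X * (2 * ∑ u, a j u ^ 2) := by
      intro j
      have e1 : ∀ π0 u, (a j u + a j (u + π0)) ^ 2 =
          a j u ^ 2 + a j (u + π0) ^ 2 + 2 * (a j u * a j (u + π0)) := by
        intro π0 u; ring
      simp_rw [e1, Finset.sum_add_distrib]
      have e2 : ∀ π0 : X, ∑ u, a j (u + π0) ^ 2 = ∑ u, a j u ^ 2 := fun π0 =>
        Equiv.sum_comp (Equiv.addRight π0) (fun u => a j u ^ 2)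
      simp_rw [e2]
      have e3 : ∑ π0 : X, ∑ u, 2 * (a j u * a j (u + π0)) = 0 := by
        rw [Finset.sum_comm]
        apply Finset.sum_eq_zero
        intro u _
        rw [← Finset.mul_sum, ← Finset.mul_sum]
        have : ∑ π0, a j (u + π0) = 0 := by
          rw [← h0 j]
          exact Equiv.sum_comp (Equiv.addLeft u) (a j)
        rw [this]; ring
      rw [e3, Finset.sum_const, Finset.card_univ, nsmul_eq_mul]
      ring
    simp_rw [h1]
    rw [Finset.sum_const, Finset.card_univ, nsmul_eq_mul, ← Finset.mul_sum, ← Finset.mul_sum]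
  obtain ⟨π0, _, h⟩ := Finset.exists_le_of_sum_le (s := (univ : Finset X)) ⟨0, Finset.mem_univ _⟩ htot.le
  exact ⟨π0, h⟩

/-- directions for which the variance of the means is `2 ^ (-d)` times the variance -/
lemma directions (g : J → X → ℝ) (m : J → ℝ) (hm : ∀ j, ∑ u, g j u = Fintype.card X * m j) :
    ∀ d : ℕ, ∃ π : Fin d → X,
      ∑ j, ∑ u, (asum π (g j) u - 2 ^ d * m j) ^ 2 ≤ 2 ^ d * ∑ j, ∑ u, (g j u - m j) ^ 2 := by
  intro d
  induction d with
  | zero =>
    refine ⟨Fin.elim0, ?_⟩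
    have : ∀ j u, asum (Fin.elim0 : Fin 0 → X) (g j) u = g j u := by
      intro j u
      unfold asum comb
      simp
    simp_rw [this]
    simp
  | succ d ih =>
    obtain ⟨π, hπ⟩ := ih
    obtain ⟨π0, h0⟩ := step (fun j u => asum π (g j) u - 2 ^ d * m j) (by
      intro j
      rw [Finset.sum_sub_distrib, sum_asum, hm, Finset.sum_const, Finset.card_univ, nsmul_eq_mul]
      ring)
    refine ⟨Fin.cons π0 π, ?_⟩
    have e : ∀ j u, (asum (Fin.cons π0 π : Fin (d + 1) → X) (g j) u - 2 ^ (d + 1) * m j) =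
        (asum π (g j) u - 2 ^ d * m j) + (asum π (g j) (u + π0) - 2 ^ d * m j) := by
      intro j u
      rw [asum_cons, pow_succ]
      ring
    simp_rw [e]
    refine h0.trans ?_
    rw [pow_succ]
    nlinarith

/-- the affine subspace -/
lemma select [Nonempty J] (G : J → X → ℝ) (hG0 : ∀ j u, 0 ≤ G j u)
    (hG : ∀ j, ∑ u, G j u ≤ Fintype.card X) (d : ℕ) :
    ∃ (u : X) (π : Fin d → X),
      (∀ j, ∑ t with G j (u + comb π t) ≤ 2 ^ d / Fintype.card J, G j (u + comb π t) ≤ 3 * 2 ^ d) ∧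
      (∀ j, ∑ t, G j (u + comb π t) ≤ 2 * Fintype.card J * 2 ^ d) := by
  classical
  set r : ℝ := (Fintype.card J : ℝ) with hr
  have hr1 : 0 < r := by rw [hr]; exact_mod_cast Fintype.card_pos
  set Q : ℝ := 2 ^ d with hQ
  have hQ0 : 0 < Q := by positivity
  set N : ℝ := (Fintype.card X : ℝ) with hN
  have hN0 : 0 < N := by
    rw [hN]
    have : 0 < Fintype.card X := Fintype.card_pos_iff.mpr ⟨0⟩
    exact_mod_cast this
  set lam : ℝ := Q / r with hlam
  have hlam0 : 0 < lam := by positivity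
  let g : J → X → ℝ := fun j u => if G j u ≤ lam then G j u else 0
  have hg0 : ∀ j u, 0 ≤ g j u := by
    intro j u; simp only [g]; split_ifs
    · exact hG0 j u
    · exact le_rfl
  have hgG : ∀ j u, g j u ≤ G j u := by
    intro j u; simp only [g]; split_ifs
    · exact le_rfl
    · exact hG0 j u
  have hglam : ∀ j u, g j u ≤ lam := by
    intro j u; simp only [g]; split_ifs with h
    · exact h
    · exact hlam0.le
  let m : J → ℝ := fun j => (∑ u, g j u) / N
  have hm : ∀ j, ∑ u, g j u = N * m j := by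
    intro j; simp only [m]; field_simp
  have hm1 : ∀ j, m j ≤ 1 := by
    intro j
    simp only [m]
    rw [div_le_one hN0]
    exact (Finset.sum_le_sum fun u _ => hgG j u).trans (hG j)
  have hm0 : ∀ j, 0 ≤ m j := fun j => div_nonneg (Finset.sum_nonneg fun u _ => hg0 j u) hN0.le
  obtain ⟨π, hπ⟩ := directions g m hm d
  have hvar : ∀ j, ∑ u, (g j u - m j) ^ 2 ≤ N * lam := by
    intro j
    have e1 : ∑ u, (g j u - m j) ^ 2 = ∑ u, g j u ^ 2 - 2 * m j * ∑ u, g j u + N * m j ^ 2 := by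
      have : ∀ u, (g j u - m j) ^ 2 = g j u ^ 2 - 2 * m j * g j u + m j ^ 2 := fun u => by ring
      simp_rw [this]
      rw [Finset.sum_add_distrib, Finset.sum_sub_distrib, ← Finset.mul_sum, Finset.sum_const,
        Finset.card_univ, nsmul_eq_mul]
    have e2 : ∑ u, g j u ^ 2 ≤ lam * ∑ u, g j u := by
      rw [Finset.mul_sum]
      apply Finset.sum_le_sum
      intro u _
      rw [sq]
      exact mul_le_mul_of_nonneg_right (hglam j u) (hg0 j u)
    have e3 : lam * ∑ u, g j u ≤ lam * N :=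
      mul_le_mul_of_nonneg_left ((Finset.sum_le_sum fun u _ => hgG j u).trans (hG j)) hlam0.le
    have e4 : 0 ≤ N * m j ^ 2 := by positivity
    rw [e1, hm j]
    rw [hm j] at e2 e3
    nlinarith
  have htot : ∑ u, (∑ j, (asum π (g j) u - Q * m j) ^ 2 / Q ^ 2 + ∑ j, asum π (G j) u / (r * Q)) ≤
      ∑ _u : X, (2 : ℝ) := by
    rw [Finset.sum_add_distrib, Finset.sum_const, Finset.card_univ, nsmul_eq_mul, ← hN]
    have f1 : ∑ u, ∑ j, (asum π (g j) u - Q * m j) ^ 2 / Q ^ 2 ≤ N := by
      rw [Finset.sum_comm]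
      simp_rw [← Finset.sum_div]
      rw [div_le_iff₀ (by positivity)]
      refine hπ.trans ?_
      have f2 : ∑ j, ∑ u, (g j u - m j) ^ 2 ≤ r * (N * lam) := by
        calc ∑ j, ∑ u, (g j u - m j) ^ 2 ≤ ∑ _j : J, N * lam := Finset.sum_le_sum fun j _ => hvar j
          _ = r * (N * lam) := by rw [Finset.sum_const, Finset.card_univ, nsmul_eq_mul]
      calc Q * ∑ j, ∑ u, (g j u - m j) ^ 2 ≤ Q * (r * (N * lam)) :=
            mul_le_mul_of_nonneg_left f2 hQ0.le
        _ = N * Q ^ 2 := by rw [hlam]; field_simp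
    have f3 : ∑ u, ∑ j, asum π (G j) u / (r * Q) ≤ N := by
      rw [Finset.sum_comm]
      simp_rw [← Finset.sum_div]
      rw [div_le_iff₀ (by positivity)]
      calc ∑ j, ∑ u, asum π (G j) u = ∑ j, Q * ∑ u, G j u := by
            apply Finset.sum_congr rfl
            intro j _
            rw [sum_asum]
        _ ≤ ∑ _j : J, Q * N := Finset.sum_le_sum fun j _ =>
            mul_le_mul_of_nonneg_left (hG j) hQ0.le
        _ = N * (r * Q) := by rw [Finset.sum_const, Finset.card_univ, nsmul_eq_mul]; ring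
    linarith
  obtain ⟨u, _, hu⟩ := Finset.exists_le_of_sum_le (s := (univ : Finset X)) ⟨0, Finset.mem_univ _⟩ htot
  have hnn1 : 0 ≤ ∑ j, (asum π (g j) u - Q * m j) ^ 2 / Q ^ 2 :=
    Finset.sum_nonneg fun j _ => by positivity
  have hGa : ∀ j, 0 ≤ asum π (G j) u := fun j => Finset.sum_nonneg fun t _ => hG0 j _
  have hnn2 : 0 ≤ ∑ j, asum π (G j) u / (r * Q) :=
    Finset.sum_nonneg fun j _ => div_nonneg (hGa j) (by positivity)
  refine ⟨u, π, ?_, ?_⟩
  · intro j
    have h1 : ∑ t with G j (u + comb π t) ≤ lam, G j (u + comb π t) = asum π (g j) u := by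
      unfold asum
      rw [Finset.sum_filter]
    rw [h1]
    have h2 : (asum π (g j) u - Q * m j) ^ 2 / Q ^ 2 ≤ 2 := by
      refine le_trans ?_ (le_trans (le_add_of_nonneg_right hnn2) hu)
      exact Finset.single_le_sum (f := fun j => (asum π (g j) u - Q * m j) ^ 2 / Q ^ 2)
        (fun j _ => by positivity) (Finset.mem_univ j)
    rw [div_le_iff₀ (by positivity)] at h2
    by_contra hcon
    push Not at hcon
    have h3 := hm1 j
    have h4 : 2 * Q ≤ asum π (g j) u - Q * m j := by nlinarith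
    nlinarith
  · intro j
    have h2 : asum π (G j) u / (r * Q) ≤ 2 := by
      refine le_trans ?_ (le_trans (le_add_of_nonneg_left hnn1) hu)
      exact Finset.single_le_sum (f := fun j => asum π (G j) u / (r * Q))
        (fun j _ => div_nonneg (hGa j) (by positivity)) (Finset.mem_univ j)
    rw [div_le_iff₀ (by positivity)] at h2
    unfold asum at h2
    linarith

end Pool.Agent.TH360.Kom
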