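import Mathlib
import Pool.Agent.TH360.Kom.Sel
import Pool.Agent.TH360.Kom.Four

/-!
# Reduction of systems with an elementary abelian 2-group of symmetries to few vectors
-/

set_option autoImplicit false

namespace Pool.Agent.TH360.Kom

open Finset

/-- all systems of at most `n` vectors have signings of value at most `B` -/
def Good (n : ℕ) (B : ℝ) : Prop :=
  ∀ (I J : Type) [Fintype I] [Fintype J] (a : I → J → ℝ), Fintype.card J ≤ n →
    (∀ v, ∑ i, a i v ^ 2 ≤ 1) →
    ∃ y : J → ℝ, (∀ j, y j = 1 ∨ y j = -1) ∧ ∀ i, |∑ v, a i v * y v| ≤ B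

section small

variable {I J : Type} [Fintype I] [Fintype J] [Nonempty J] {d : ℕ}

/-- the signing of the bulk, with control of the heavy frequencies -/
lemma bulk (c : I → J → (Fin d → ZMod 2) → ℝ) (S : J → Finset (Fin d → ZMod 2))
    (hbulk : ∀ j, ∑ t ∈ (S j)ᶜ, ∑ i, c i j t ^ 2 ≤ 3 * 2 ^ d)
    (hS : ∀ j, ((S j).card : ℝ) ≤ 2 * (Fintype.card J : ℝ) ^ 2) (B : ℝ)
    (hB : Good (Fintype.card J * 2 ^ d) B) :
    ∃ σ : J → (Fin d → ZMod 2) → ℝ, (∀ j z, σ j z = 1 ∨ σ j z = -1) ∧
      (∀ i w, |∑ j, ∑ t ∈ (S j)ᶜ, c i j t * e t w * (∑ z, e t z * σ j z)| ≤ 2 ^ d * (2 * B)) ∧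
      ∀ j, ∀ t ∈ S j, |∑ z, e t z * σ j z| ≤ 3 * Fintype.card J * B := by
  classical
  set r : ℝ := (Fintype.card J : ℝ) with hr
  have hr0 : 0 < r := by rw [hr]; exact_mod_cast Fintype.card_pos
  have hQ0 : (0 : ℝ) < 2 ^ d := by positivity
  let a : (I × (Fin d → ZMod 2)) ⊕ (J × (Fin d → ZMod 2)) → J × (Fin d → ZMod 2) → ℝ :=
    fun row q => Sum.elim (fun p => (∑ t ∈ (S q.1)ᶜ, c p.1 q.1 t * e t (p.2 + q.2)) / (2 * 2 ^ d))
      (fun p => if p.1 = q.1 ∧ p.2 ∈ S p.1 then e p.2 q.2 / (3 * r) else 0) row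
  have hcol : ∀ q, ∑ row, a row q ^ 2 ≤ 1 := by
    rintro ⟨j, z⟩
    rw [Fintype.sum_sum_type]
    have h1 : ∑ p : I × (Fin d → ZMod 2), a (Sum.inl p) (j, z) ^ 2 ≤ 3 / 4 := by
      have e1 : ∀ i, ∑ w, (∑ t ∈ (S j)ᶜ, c i j t * e t (w + z)) ^ 2 =
          2 ^ d * ∑ t ∈ (S j)ᶜ, c i j t ^ 2 := by
        intro i
        have e2 : ∑ w, (∑ t ∈ (S j)ᶜ, c i j t * e t (w + z)) ^ 2 =
            ∑ w, (∑ t ∈ (S j)ᶜ, c i j t * e t w) ^ 2 :=
          Equiv.sum_comp (Equiv.addRight z) (fun w => (∑ t ∈ (S j)ᶜ, c i j t * e t w) ^ 2)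
        rw [e2]
        have e3 := pars (d := d) (fun t => if t ∈ (S j)ᶜ then c i j t else 0)
        have e4 : ∀ w, ∑ t, (if t ∈ (S j)ᶜ then c i j t else 0) * e t w =
            ∑ t ∈ (S j)ᶜ, c i j t * e t w := by
          intro w
          rw [← Finset.sum_filter_add_sum_filter_not univ (fun t => t ∈ (S j)ᶜ)]
          have e5 : ∑ t with ¬ t ∈ (S j)ᶜ, (if t ∈ (S j)ᶜ then c i j t else 0) * e t w = 0 := by
            apply Finset.sum_eq_zero
            intro t ht
            rw [if_neg (Finset.mem_filter.mp ht).2, zero_mul]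
          rw [e5, add_zero]
          apply Finset.sum_congr
          · ext t; simp
          · intro t ht
            rw [if_pos ht]
        simp_rw [e4] at e3
        rw [e3]
        congr 1
        have e6 : ∀ t, (if t ∈ (S j)ᶜ then c i j t else 0) ^ 2 =
            if t ∈ (S j)ᶜ then c i j t ^ 2 else 0 := by
          intro t; split_ifs <;> simp
        simp_rw [e6]
        rw [← Finset.sum_filter]
        apply Finset.sum_congr
        · ext t; simp
        · intro t _; rfl
      have e7 : ∀ p : I × (Fin d → ZMod 2), a (Sum.inl p) (j, z) ^ 2 =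
          (∑ t ∈ (S j)ᶜ, c p.1 j t * e t (p.2 + z)) ^ 2 / (2 * 2 ^ d) ^ 2 := by
        intro p
        simp only [a, Sum.elim_inl]
        rw [div_pow]
      simp_rw [e7]
      rw [← Finset.sum_div, Fintype.sum_prod_type]
      simp_rw [e1]
      rw [← Finset.mul_sum, Finset.sum_comm, div_le_iff₀ (by positivity)]
      have := hbulk j
      nlinarith
    have h2 : ∑ p : J × (Fin d → ZMod 2), a (Sum.inr p) (j, z) ^ 2 ≤ 1 / 4 := by
      have e1 : ∀ p : J × (Fin d → ZMod 2), a (Sum.inr p) (j, z) ^ 2 =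
          if p.1 = j ∧ p.2 ∈ S p.1 then 1 / (3 * r) ^ 2 else 0 := by
        intro p
        simp only [a, Sum.elim_inr]
        split_ifs
        · rw [div_pow, e_sq]
        · simp
      simp_rw [e1]
      rw [Fintype.sum_prod_type]
      rw [Finset.sum_eq_single j]
      · simp only [true_and]
        rw [← Finset.sum_filter, Finset.sum_const, nsmul_eq_mul]
        have e2 : ((univ.filter fun x => x ∈ S j).card : ℝ) = ((S j).card : ℝ) := by
          congr 2
          ext t; simp
        rw [e2, mul_one_div, div_le_iff₀ (by positivity)]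
        have := hS j
        nlinarith [sq_nonneg r]
      · intro j' _ hj'
        apply Finset.sum_eq_zero
        intro t _
        rw [if_neg]
        rintro ⟨h, _⟩
        exact hj' h
      · intro h; exact absurd (Finset.mem_univ j) h
    linarith
  obtain ⟨y, hy, hb⟩ := hB _ _ a (by
    rw [Fintype.card_prod, Fintype.card_fun, ZMod.card, Fintype.card_fin]) hcol
  refine ⟨fun j z => y (j, z), fun j z => hy _, ?_, ?_⟩
  · intro i w
    have h1 := hb (Sum.inl (i, w))
    have h2 : ∑ v, a (Sum.inl (i, w)) v * y v =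
        (∑ j, ∑ t ∈ (S j)ᶜ, c i j t * e t w * (∑ z, e t z * y (j, z))) / (2 * 2 ^ d) := by
      rw [Fintype.sum_prod_type, Finset.sum_div]
      refine Finset.sum_congr rfl fun j _ => ?_
      simp only [a, Sum.elim_inl]
      have e1 : ∀ z, (∑ t ∈ (S j)ᶜ, c i j t * e t (w + z)) / (2 * 2 ^ d) * y (j, z) =
          (∑ t ∈ (S j)ᶜ, c i j t * e t w * (e t z * y (j, z))) / (2 * 2 ^ d) := by
        intro z
        rw [div_mul_eq_mul_div, Finset.sum_mul]
        congr 1
        refine Finset.sum_congr rfl fun t _ => ?_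
        rw [e_add_right]; ring
      simp_rw [e1]
      rw [← Finset.sum_div, Finset.sum_comm]
      congr 1
      refine Finset.sum_congr rfl fun t _ => ?_
      rw [Finset.mul_sum]
    rw [h2, abs_div, abs_of_pos (by positivity : (0 : ℝ) < 2 * 2 ^ d), div_le_iff₀ (by positivity)] at h1
    linarith
  · intro j t ht
    have h1 := hb (Sum.inr (j, t))
    have h2 : ∑ v, a (Sum.inr (j, t)) v * y v = (∑ z, e t z * y (j, z)) / (3 * r) := by
      rw [Fintype.sum_prod_type, Finset.sum_eq_single j]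
      · simp only [a, Sum.elim_inr, true_and, if_pos ht]
        rw [Finset.sum_div]
        refine Finset.sum_congr rfl fun z _ => ?_
        ring
      · intro j' _ hj'
        apply Finset.sum_eq_zero
        intro z _
        simp only [a, Sum.elim_inr]
        rw [if_neg, zero_mul]
        rintro ⟨h, _⟩
        exact hj' h.symm
      · intro h; exact absurd (Finset.mem_univ j) h
    rw [h2, abs_div, abs_of_pos (by positivity : (0 : ℝ) < 3 * r), div_le_iff₀ (by positivity)] at h1
    linarith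

end small

section red

variable {H : Type} [CommGroup H] [Fintype H]

/-- systems with an elementary abelian group of symmetries in coordinates -/
theorem reduce (h2 : ∀ a : H, a * a = 1) {I J : Type} [Fintype I] [Fintype J] [Nonempty J]
    (f : I → J → H → ℝ) (hf : ∀ j, ∑ i, ∑ y, f i j y ^ 2 ≤ 1) (d : ℕ)
    (hd : 72 * (Fintype.card J : ℝ) ^ 9 ≤ 2 ^ d) (B : ℝ) (hB : Good (Fintype.card J * 2 ^ d) B) :
    ∃ ε : J → H → ℝ, (∀ j y, ε j y = 1 ∨ ε j y = -1) ∧
      ∀ i x, |∑ j, ∑ y, f i j (x * y) * ε j y| ≤ 3 * B := by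
  classical
  let _ : Module (ZMod 2) (Additive H) := AddCommGroup.zmodModule (n := 2) (by
    intro x
    rw [two_nsmul]
    exact h2 x.toMul)
  have hfin : Finite (Module.Dual (ZMod 2) (Additive H)) := DFunLike.finite _
  let _ : Fintype (Module.Dual (ZMod 2) (Additive H)) := Fintype.ofFinite _
  let s : Module.Dual (ZMod 2) (Additive H) → H → ℝ := fun ψ y => sgn (ψ (Additive.ofMul y))
  have hs : ∀ ψ y, s ψ y = sgn (ψ (Additive.ofMul y)) := fun _ _ => rfl
  set r : ℝ := (Fintype.card J : ℝ) with hr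
  have hr0 : 0 < r := by rw [hr]; exact_mod_cast Fintype.card_pos
  have hQ0 : (0 : ℝ) < 2 ^ d := by positivity
  let G : J → Module.Dual (ZMod 2) (Additive H) → ℝ := fun j ψ => ∑ i, (∑ y, f i j y * s ψ y) ^ 2
  have hG0 : ∀ j ψ, 0 ≤ G j ψ := fun j ψ => Finset.sum_nonneg fun i _ => sq_nonneg _
  have hG : ∀ j, ∑ ψ, G j ψ ≤ Fintype.card (Module.Dual (ZMod 2) (Additive H)) := by
    intro j
    simp only [G]
    rw [Finset.sum_comm]
    have e1 : ∀ i, ∑ ψ, (∑ y, f i j y * s ψ y) ^ 2 =
        Fintype.card (Module.Dual (ZMod 2) (Additive H)) * ∑ y, f i j y ^ 2 := fun i =>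
      parsX (fun y => f i j y)
    simp_rw [e1]
    rw [← Finset.mul_sum]
    have := hf j
    have hN : (0 : ℝ) ≤ Fintype.card (Module.Dual (ZMod 2) (Additive H)) := Nat.cast_nonneg _
    nlinarith
  obtain ⟨u, π, hsel1, hsel2⟩ := select G hG0 hG d
  -- homomorphism to the small group
  let p : H → Fin d → ZMod 2 := fun y l => π l (Additive.ofMul y)
  have hp : ∀ x y, p (x * y) = p x + p y := by
    intro x y
    funext l
    simp only [p, ofMul_mul, map_add, Pi.add_apply]
  let χ : H → ℝ := fun y => s u y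
  have hχm : ∀ x y, χ (x * y) = χ x * χ y := by
    intro x y
    simp only [χ, hs, ofMul_mul, map_add, sgn_add]
  have hχpm : ∀ y, χ y = 1 ∨ χ y = -1 := fun y => sgn_pm _
  have hkey : ∀ t y, s (u + comb π t) y = χ y * e t (p y) := by
    intro t y
    simp only [χ, hs, e, p, comb]
    rw [LinearMap.add_apply, sgn_add]
    congr 2
    rw [LinearMap.sum_apply]
    rfl
  let c : I → J → (Fin d → ZMod 2) → ℝ := fun i j t => ∑ y, f i j y * s (u + comb π t) y
  have hGc : ∀ j t, G j (u + comb π t) = ∑ i, c i j t ^ 2 := fun _ _ => rfl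
  let S : J → Finset (Fin d → ZMod 2) := fun j =>
    univ.filter fun t => ¬ G j (u + comb π t) ≤ 2 ^ d / Fintype.card J
  have hbulk : ∀ j, ∑ t ∈ (S j)ᶜ, ∑ i, c i j t ^ 2 ≤ 3 * 2 ^ d := by
    intro j
    refine le_trans (le_of_eq ?_) (hsel1 j)
    apply Finset.sum_congr
    · ext t; simp [S]
    · intro t _; rw [hGc]
  have hS : ∀ j, ((S j).card : ℝ) ≤ 2 * r ^ 2 := by
    intro j
    have h1 : ((S j).card : ℝ) * (2 ^ d / r) ≤ 2 * r * 2 ^ d := by
      calc ((S j).card : ℝ) * (2 ^ d / r) = ∑ t ∈ S j, (2 ^ d / r) := by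
            rw [Finset.sum_const, nsmul_eq_mul]
        _ ≤ ∑ t ∈ S j, G j (u + comb π t) := by
            apply Finset.sum_le_sum
            intro t ht
            have := (Finset.mem_filter.mp ht).2
            push Not at this
            exact this.le
        _ ≤ ∑ t, G j (u + comb π t) := Finset.sum_le_sum_of_subset_of_nonneg
            (Finset.subset_univ _) (fun t _ _ => hG0 j _)
        _ ≤ _ := hsel2 j
    rw [mul_div_assoc', div_le_iff₀ hr0] at h1
    have h3 : ((S j).card : ℝ) * 2 ^ d ≤ (2 * r ^ 2) * 2 ^ d := by linarith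
    exact le_of_mul_le_mul_right h3 hQ0
  obtain ⟨σ, hσ, hb1, hb2⟩ := bulk c S hbulk hS B hB
  have hB0 : 0 ≤ B := by
    obtain ⟨y, _, hy⟩ := hB PUnit (Fin 0) (fun _ _ => 0) (by simp) (by simp)
    exact le_trans (abs_nonneg _) (hy PUnit.unit)
  -- size of the coefficients
  set M : ℝ := Real.sqrt (2 * r * 2 ^ d) with hM
  have hM2 : M ^ 2 = 2 * r * 2 ^ d := Real.sq_sqrt (by positivity)
  have hM0 : 0 ≤ M := Real.sqrt_nonneg _
  have hcM : ∀ i j t, |c i j t| ≤ M := by
    intro i j t
    apply Real.abs_le_sqrt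
    calc c i j t ^ 2 ≤ ∑ i, c i j t ^ 2 := Finset.single_le_sum (f := fun i => c i j t ^ 2)
          (fun i _ => sq_nonneg _) (Finset.mem_univ i)
      _ = G j (u + comb π t) := (hGc j t).symm
      _ ≤ ∑ t, G j (u + comb π t) := Finset.single_le_sum (f := fun t => G j (u + comb π t))
          (fun t _ => hG0 j _) (Finset.mem_univ t)
      _ ≤ _ := hsel2 j
  have hnum : 6 * r ^ 4 * M ≤ 2 ^ d := by
    have h1 : (6 * r ^ 4 * M) ^ 2 ≤ ((2 : ℝ) ^ d) ^ 2 := by
      rw [mul_pow, hM2]
      have : 36 * r ^ 8 * (2 * r * 2 ^ d) = (72 * r ^ 9) * 2 ^ d := by ring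
      rw [mul_pow, ← pow_mul]
      norm_num
      rw [this, sq]
      exact mul_le_mul_of_nonneg_right hd hQ0.le
    exact (pow_le_pow_iff_left₀ (by positivity) (by positivity) (by norm_num)).mp h1
  have hheavy : ∀ i w, |∑ j, ∑ t ∈ S j, c i j t * e t w * (∑ z, e t z * σ j z)| ≤ 2 ^ d * B := by
    intro i w
    calc |∑ j, ∑ t ∈ S j, c i j t * e t w * (∑ z, e t z * σ j z)|
        ≤ ∑ j, ∑ t ∈ S j, |c i j t * e t w * (∑ z, e t z * σ j z)| := by
          refine (Finset.abs_sum_le_sum_abs _ _).trans (Finset.sum_le_sum fun j _ => ?_)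
          exact Finset.abs_sum_le_sum_abs _ _
      _ ≤ ∑ j : J, ∑ t ∈ S j, M * (3 * r * B) := by
          refine Finset.sum_le_sum fun j _ => Finset.sum_le_sum fun t ht => ?_
          rw [abs_mul, abs_mul]
          have h1 : |e t w| = 1 := by rcases e_pm t w with h | h <;> rw [h] <;> norm_num
          rw [h1, mul_one]
          exact mul_le_mul (hcM i j t) (hb2 j t ht) (abs_nonneg _) hM0
      _ ≤ ∑ j : J, (2 * r ^ 2) * (M * (3 * r * B)) := by
          refine Finset.sum_le_sum fun j _ => ?_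
          rw [Finset.sum_const, nsmul_eq_mul]
          exact mul_le_mul_of_nonneg_right (hS j) (by positivity)
      _ = (6 * r ^ 4 * M) * B := by
          rw [Finset.sum_const, Finset.card_univ, nsmul_eq_mul, ← hr]; ring
      _ ≤ 2 ^ d * B := mul_le_mul_of_nonneg_right hnum hB0
  refine ⟨fun j y => χ y * σ j (p y), ?_, ?_⟩
  · intro j y
    change χ y * σ j (p y) = 1 ∨ χ y * σ j (p y) = -1
    rcases hχpm y with h | h <;> rcases hσ j (p y) with h' | h' <;> rw [h, h'] <;> norm_num
  · intro i x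
    have h1 : ∀ j, 2 ^ d * ∑ y, f i j (x * y) * (χ y * σ j (p y)) =
        χ x * ∑ t, c i j t * e t (p x) * (∑ z, e t z * σ j z) := by
      intro j
      have e1 : ∑ y, f i j (x * y) * (χ y * σ j (p y)) =
          ∑ y, f i j y * (χ (x * y) * σ j (p (x * y))) := by
        have := Equiv.sum_comp (Equiv.mulLeft x) (fun y => f i j y * (χ (x * y) * σ j (p (x * y))))
        rw [← this]
        refine Finset.sum_congr rfl fun y _ => ?_
        simp only [Equiv.coe_mulLeft]
        have : x * (x * y) = y := by rw [← mul_assoc, h2, one_mul]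
        rw [this]
      rw [e1]
      simp_rw [hχm, hp]
      have e2 : ∀ y, 2 ^ d * (f i j y * (χ x * χ y * σ j (p x + p y))) =
          χ x * (f i j y * χ y * ∑ t, (∑ z, e t z * σ j z) * e t (p x + p y)) := by
        intro y
        rw [inv]; ring
      rw [Finset.mul_sum]
      simp_rw [e2]
      rw [← Finset.mul_sum]
      congr 1
      have e3 : ∀ y, f i j y * χ y * ∑ t, (∑ z, e t z * σ j z) * e t (p x + p y) =
          ∑ t, f i j y * χ y * ((∑ z, e t z * σ j z) * e t (p x + p y)) := fun y =>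
        Finset.mul_sum _ _ _
      rw [Finset.sum_congr rfl fun y _ => e3 y, Finset.sum_comm]
      refine Finset.sum_congr rfl fun t _ => ?_
      have e4 : c i j t = ∑ y, f i j y * (χ y * e t (p y)) := by
        simp only [c]
        exact Finset.sum_congr rfl fun y _ => by rw [hkey]
      rw [e4, Finset.sum_mul, Finset.sum_mul]
      refine Finset.sum_congr rfl fun y _ => ?_
      rw [e_add_right]
      ring
    have h3 : 2 ^ d * ∑ j, ∑ y, f i j (x * y) * (χ y * σ j (p y)) =
        χ x * (∑ j, ∑ t ∈ (S j)ᶜ, c i j t * e t (p x) * (∑ z, e t z * σ j z) +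
          ∑ j, ∑ t ∈ S j, c i j t * e t (p x) * (∑ z, e t z * σ j z)) := by
      rw [Finset.mul_sum, ← Finset.sum_add_distrib, Finset.mul_sum]
      refine Finset.sum_congr rfl fun j _ => ?_
      rw [h1 j, Finset.sum_compl_add_sum]
    have hx1 : |χ x| = 1 := by rcases hχpm x with h | h <;> rw [h] <;> norm_num
    have h4 : |2 ^ d * ∑ j, ∑ y, f i j (x * y) * (χ y * σ j (p y))| ≤ 2 ^ d * (3 * B) := by
      rw [h3, abs_mul, hx1, one_mul]
      refine (abs_add_le _ _).trans ?_
      have := hb1 i (p x)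
      have := hheavy i (p x)
      linarith
    rw [abs_mul, abs_of_pos hQ0] at h4
    exact le_of_mul_le_mul_left h4 hQ0

end red

end Pool.Agent.TH360.Kom
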